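import Pool.Agent.Lib.MP_34b931_co.Lat37

namespace Pool.Agent.Variants.MP_34b931_co.StackedRigid

open Pool.Agent.Lib.MP_34b931_co BallPoly Metric Set

/-- A standard ball-polyhedron of stacked type is globally rigid with respect to its face
angles. -/
theorem result {n m : ℕ} (P : BallPoly n) (hP : P.Standard) (hT : P.StackedType)
    (Q : BallPoly m) (hQ : Q.Standard) (φ : P.Cell ≃o Q.Cell) (hφ : P.SameFaceAngles Q φ) :
    ∃ Ψ : E3 ≃ᵢ E3, Ψ '' Q.body = P.body := by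
  obtain ⟨T, hS, hT⟩ := hT
  obtain ⟨σ, hσ⟩ := exists_equiv φ
  have hσ' : ∀ j, φ.symm (Q.fc j) = P.fc (σ.symm j) := fun j => by
    rw [φ.symm_apply_eq, hσ, σ.apply_symm_apply]
  have inQ : ∀ {x}, InP (Q.c ∘ σ) Finset.univ x ↔ x ∈ Q.body := fun {x} => by
    rw [mem_body]
    exact ⟨fun h j _ => by simpa using h (σ.symm j) (by simp), fun h i _ => h (σ i) (by simp)⟩
  have pQ : Priv (Q.c ∘ σ) := fun i => by
    obtain ⟨x, h1, h2⟩ := Q.priv (σ i)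
    exact ⟨x, h1, fun j hj => h2 _ (σ.injective.ne hj)⟩
  have tri : ∀ v i j k, i ≠ j → j ≠ k → i ≠ k → v ∈ P.face i → v ∈ P.face j → v ∈ P.face k →
      {i, j, k} ∈ T := by
    intro v i j k ij jk ik k1 k2 k3
    have h := (hT _).2 ⟨v, vertex_of ij jk ik k1 k2 k3, rfl⟩
    rwa [← Finset.eq_of_subset_of_card_le (s := {i, j, k}) (t := P.facesAt v)
      (by simp [Finset.insert_subset_iff, mem_facesAt, k1, k2, k3])
      (by rw [(hS.sub _ h).2, Finset.card_eq_three.2 ⟨_, _, _, ij, ik, jk, rfl⟩])] at h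
  have p1 : ∀ A ∈ T, ∃ v, InP P.c Finset.univ v ∧ ∀ i ∈ A, dist v (P.c i) = 1 := by
    intro A hA
    obtain ⟨v, hv, rfl⟩ := (hT A).1 hA
    exact ⟨v, mem_body.1 (closed_body.frontier_subset hv.1),
      fun i hi => (mem_face.1 (mem_facesAt.1 hi)).2⟩
  have q1 : ∀ A ∈ T, ∃ v, InP (Q.c ∘ σ) Finset.univ v ∧ ∀ i ∈ A, dist v ((Q.c ∘ σ) i) = 1 := by
    intro A hA
    obtain ⟨v, hv, rfl⟩ := (hT A).1 hA
    obtain ⟨w, hw, -, e⟩ := map_vertex φ σ hσ hv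
    exact ⟨w, inQ.2 (closed_body.frontier_subset hw.1),
      fun i hi => (mem_face.1 ((e i).2 (mem_facesAt.1 hi))).2⟩
  have p2 : ∀ v, InP P.c Finset.univ v → ∀ i ∈ Finset.univ, ∀ j ∈ Finset.univ, ∀ k ∈ Finset.univ,
      i ≠ j → j ≠ k → i ≠ k → dist v (P.c i) = 1 → dist v (P.c j) = 1 → dist v (P.c k) = 1 →
      {i, j, k} ∈ T := fun v hv i _ j _ k _ ij jk ik k1 k2 k3 =>
    tri v i j k ij jk ik (mem_face.2 ⟨mem_body.2 hv, k1⟩) (mem_face.2 ⟨mem_body.2 hv, k2⟩)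
      (mem_face.2 ⟨mem_body.2 hv, k3⟩)
  have q2 : ∀ v, InP (Q.c ∘ σ) Finset.univ v → ∀ i ∈ Finset.univ, ∀ j ∈ Finset.univ,
      ∀ k ∈ Finset.univ, i ≠ j → j ≠ k → i ≠ k → dist v ((Q.c ∘ σ) i) = 1 →
      dist v ((Q.c ∘ σ) j) = 1 → dist v ((Q.c ∘ σ) k) = 1 → {i, j, k} ∈ T := by
    intro w hw i _ j _ k _ ij jk ik k1 k2 k3
    have f1 := mem_face.2 ⟨inQ.1 hw, k1⟩
    have f2 := mem_face.2 ⟨inQ.1 hw, k2⟩
    have f3 := mem_face.2 ⟨inQ.1 hw, k3⟩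
    obtain ⟨v, -, -, e⟩ := map_vertex φ.symm σ.symm hσ'
      (vertex_of (σ.injective.ne ij) (σ.injective.ne jk) (σ.injective.ne ik) f1 f2 f3)
    exact tri v i j k ij jk ik (by simpa using (e _).2 f1) (by simpa using (e _).2 f2)
      (by simpa using (e _).2 f3)
  have NP : Nerve P.c Finset.univ T := ⟨p1, p2, share P.priv hS p1 p2,
    fun v hv v' hv' i _ j _ k _ ij jk ik k1 k2 k3 l1 l2 l3 =>
      hP.uniq ij jk ik (mem_face.2 ⟨mem_body.2 hv, k1⟩) (mem_face.2 ⟨mem_body.2 hv, k2⟩)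
        (mem_face.2 ⟨mem_body.2 hv, k3⟩) (mem_face.2 ⟨mem_body.2 hv', l1⟩)
        (mem_face.2 ⟨mem_body.2 hv', l2⟩) (mem_face.2 ⟨mem_body.2 hv', l3⟩)⟩
  have NQ : Nerve (Q.c ∘ σ) Finset.univ T := ⟨q1, q2, share pQ hS q1 q2,
    fun v hv v' hv' i _ j _ k _ ij jk ik k1 k2 k3 l1 l2 l3 =>
      hQ.uniq (σ.injective.ne ij) (σ.injective.ne jk) (σ.injective.ne ik)
        (mem_face.2 ⟨inQ.1 hv, k1⟩) (mem_face.2 ⟨inQ.1 hv, k2⟩)
        (mem_face.2 ⟨inQ.1 hv, k3⟩) (mem_face.2 ⟨inQ.1 hv', l1⟩)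
        (mem_face.2 ⟨inQ.1 hv', l2⟩) (mem_face.2 ⟨inQ.1 hv', l3⟩)⟩
  have dd : ∀ A ∈ T, ∀ i ∈ A, ∀ j ∈ A,
      dist ((Q.c ∘ σ) i) ((Q.c ∘ σ) j) = dist (P.c i) (P.c j) := by
    intro A hA i hi j hj
    by_cases ij : i = j
    · simp [ij]
    obtain ⟨k, jk, ik, e3⟩ : ∃ k, j ≠ k ∧ i ≠ k ∧ A = {i, j, k} := by
      have c3 := (hS.sub A hA).2
      obtain ⟨k, kA, hk⟩ := Finset.exists_mem_notMem_of_card_lt_card (s := {i, j}) (t := A)
        (by rw [c3, Finset.card_pair ij]; omega)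
      simp only [Finset.mem_insert, Finset.mem_singleton, not_or] at hk
      refine ⟨k, Ne.symm hk.2, Ne.symm hk.1, (Finset.eq_of_subset_of_card_le
        (by simp [Finset.insert_subset_iff, hi, hj, kA]) ?_).symm⟩
      rw [c3, Finset.card_eq_three.2 ⟨_, _, _, ij, Ne.symm hk.1, Ne.symm hk.2, rfl⟩]
    obtain ⟨v, hv, ev⟩ := (hT A).1 hA
    obtain ⟨w, hw, ew, e⟩ := map_vertex φ σ hσ hv
    rw [e3] at ev
    have fv : ∀ l ∈ ({i, j, k} : Finset (Fin n)), v ∈ P.face l := fun l hl =>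
      mem_facesAt.1 (ev ▸ hl)
    have ew2 : Q.facesAt w = {σ i, σ j, σ k} := by
      ext l
      obtain ⟨l, rfl⟩ := σ.surjective l
      rw [mem_facesAt, e, ← mem_facesAt, ev]
      simp
    have ang : ∀ a b d, ({i, j, k} : Finset (Fin n)) = {a, b, d} → ∃ θ,
        Corner (P.c a - v) (P.c b - v) (P.c d - v) θ ∧
        Corner (Q.c (σ a) - w) (Q.c (σ b) - w) (Q.c (σ d) - w) θ := by
      intro a b d h
      obtain ⟨θ, h1, h2⟩ := hφ (P.fc a) (vc hv) a v w rfl hv (fv a (by simp [h])) rfl ew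
      rw [hσ] at h2
      refine ⟨θ, hP.corner (ev.trans h) h1, hQ.corner (ew2.trans ?_) h2⟩
      simpa using congrArg (Finset.image σ) h
    obtain ⟨θ1, a1, b1⟩ := ang i j k rfl
    obtain ⟨θ2, a2, b2⟩ := ang j k i (by ext; simp; tauto)
    obtain ⟨θ3, a3, b3⟩ := ang k i j (by ext; simp; tauto)
    have on : ∀ l ∈ ({i, j, k} : Finset (Fin n)), dist v (P.c l) = 1 := fun l hl =>
      (mem_face.1 (fv l hl)).2
    have on' : ∀ l ∈ ({i, j, k} : Finset (Fin n)), dist w (Q.c (σ l)) = 1 := fun l hl =>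
      (mem_face.1 ((e l).2 (fv l hl))).2
    have := aaa (P.priv.ind ij jk ik (on i (by simp)) (on j (by simp)) (on k (by simp)))
      (pQ.ind ij jk ik (on' i (by simp)) (on' j (by simp)) (on' k (by simp)))
      (norm_one (on i (by simp))) (norm_one (on j (by simp))) (norm_one (on' i (by simp)))
      (norm_one (on' j (by simp))) a1 a2 a3 b1 b2 b3
    rwa [sub_sub_sub_cancel_right, sub_sub_sub_cancel_right, ← dist_eq_norm, ← dist_eq_norm] at this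
  obtain ⟨Ψ, hΨ⟩ := hS.rigid pQ P.priv NQ NP dd
  refine ⟨Ψ, ?_⟩
  ext x
  obtain ⟨y, rfl⟩ := Ψ.surjective x
  rw [Ψ.injective.mem_set_image, ← inQ, mem_body]
  refine forall₂_congr fun i hi => ?_
  rw [← hΨ i hi, Ψ.dist_eq]

end Pool.Agent.Variants.MP_34b931_co.StackedRigid
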